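import Pool.Agent.Helper12_UNF.Stmts2

/-!
# Squad UNF, module LOC: localization to a path component
-/

set_option autoImplicit false

namespace Unf.H37

open Art Unf

/-- the subgroup generated by the edges and arcs of the path curves -/
def Fp (N n : ℕ) : Subgroup (FreeGroup (Xg N)) :=
  Subgroup.closure {x | ∃ i : Fin N, i.1 < n ∧ (x = hg i ∨ ∃ j, x = eg i j)}

lemma hg_mem {N n : ℕ} (i : Fin N) (h : i.1 < n) : hg i ∈ Fp N n :=
  Subgroup.subset_closure ⟨i, h, Or.inl rfl⟩

lemma eg_mem {N n : ℕ} (i : Fin N) (h : i.1 < n) (j : Fin (N + 1)) : eg i j ∈ Fp N n :=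
  Subgroup.subset_closure ⟨i, h, Or.inr ⟨j, rfl⟩⟩

lemma cyc_mem {N n : ℕ} (i : Fin N) (h : i.1 < n) (r : ℕ) : cyc i r ∈ Fp N n := by
  unfold cyc
  apply Subgroup.list_prod_mem
  intro x hx
  rw [List.mem_map] at hx
  obtain ⟨j, _, rfl⟩ := hx
  exact eg_mem i h j

lemma T_self {N : ℕ} {adj : Fin N → Fin N → Prop} {T : Fin N → MulAut (FreeGroup (Xg N))}
    (hirr : ∀ i, ¬ adj i i) (hT : Tw adj T) (i : Fin N) (j : Fin (N + 1)) :
    T i (eg i j) = eg i j :=
  hT.e_fix i i j (fun h => hirr i h.1) (fun h => hirr i h.1)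

lemma T_cyc {N : ℕ} {adj : Fin N → Fin N → Prop} {T : Fin N → MulAut (FreeGroup (Xg N))}
    (hirr : ∀ i, ¬ adj i i) (hT : Tw adj T) (i : Fin N) (r : ℕ) :
    T i (cyc i r) = cyc i r := by
  unfold cyc
  rw [map_list_prod, List.map_map]
  congr 1
  apply List.map_congr_left
  intro j _
  exact T_self hirr hT i j

/-- the images of the generators -/
lemma T_mem {N n : ℕ} {adj : Fin N → Fin N → Prop} {T : Fin N → MulAut (FreeGroup (Xg N))}
    (hT : Tw adj T) (i : Fin N) (hi : i.1 < n) : ∀ f ∈ Fp N n, T i f ∈ Fp N n := by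
  intro f hf
  unfold Fp at hf
  induction hf using Subgroup.closure_induction with
  | mem x hx =>
    obtain ⟨t, ht, rfl | ⟨j, rfl⟩⟩ := hx
    · by_cases h : t = i
      · subst h
        rw [hT.hh]
        exact mul_mem (cyc_mem t ht 0) (hg_mem t ht)
      · rw [hT.h_fix i t h]
        exact hg_mem t ht
    · by_cases h1 : adj i t ∧ i < t ∧ j = i.succ
      · obtain ⟨h2, h3, rfl⟩ := h1
        rw [hT.out i t h2 h3]
        exact mul_mem (cyc_mem i hi _) (eg_mem t ht _)
      · by_cases h2 : adj i t ∧ t < i ∧ j = i.castSucc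
        · obtain ⟨h3, h4, rfl⟩ := h2
          rw [hT.inn i t h3 h4]
          exact mul_mem (eg_mem t ht _) (inv_mem (cyc_mem i hi _))
        · rw [hT.e_fix i t j h1 h2]
          exact eg_mem t ht _
  | one => rw [map_one]; exact one_mem _
  | mul x y _ _ hx hy => rw [map_mul]; exact mul_mem hx hy
  | inv x _ hx => rw [map_inv]; exact inv_mem hx

lemma Tinv_mem {N n : ℕ} {adj : Fin N → Fin N → Prop} {T : Fin N → MulAut (FreeGroup (Xg N))}
    (hirr : ∀ i, ¬ adj i i) (hT : Tw adj T) (i : Fin N) (hi : i.1 < n) :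
    ∀ f ∈ Fp N n, (T i)⁻¹ f ∈ Fp N n := by
  intro f hf
  unfold Fp at hf
  have key : ∀ x y : FreeGroup (Xg N), T i y = x → (T i)⁻¹ x = y := by
    intro x y h
    rw [← h, MulAut.inv_apply_self]
  induction hf using Subgroup.closure_induction with
  | mem x hx =>
    obtain ⟨t, ht, rfl | ⟨j, rfl⟩⟩ := hx
    · by_cases h : t = i
      · subst h
        rw [key (hg t) ((cyc t 0)⁻¹ * hg t) (by
          rw [map_mul, map_inv, T_cyc hirr hT, hT.hh, inv_mul_cancel_left])]
        exact mul_mem (inv_mem (cyc_mem t ht 0)) (hg_mem t ht)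
      · rw [key (hg t) (hg t) (hT.h_fix i t h)]
        exact hg_mem t ht
    · by_cases h1 : adj i t ∧ i < t ∧ j = i.succ
      · obtain ⟨h2, h3, rfl⟩ := h1
        rw [key (eg t i.succ) ((cyc i (t.1 + 1))⁻¹ * eg t i.succ) (by
          rw [map_mul, map_inv, T_cyc hirr hT, hT.out i t h2 h3, inv_mul_cancel_left])]
        exact mul_mem (inv_mem (cyc_mem i hi _)) (eg_mem t ht _)
      · by_cases h2 : adj i t ∧ t < i ∧ j = i.castSucc
        · obtain ⟨h3, h4, rfl⟩ := h2
          rw [key (eg t i.castSucc) (eg t i.castSucc * cyc i (t.1 + 1)) (by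
            rw [map_mul, T_cyc hirr hT, hT.inn i t h3 h4, inv_mul_cancel_right])]
          exact mul_mem (eg_mem t ht _) (cyc_mem i hi _)
        · rw [key (eg t j) (eg t j) (hT.e_fix i t j h1 h2)]
          exact eg_mem t ht _
  | one => rw [map_one]; exact one_mem _
  | mul x y _ _ hx hy => rw [map_mul]; exact mul_mem hx hy
  | inv x _ hx => rw [map_inv]; exact inv_mem hx

/-- a twist along a curve that is not adjacent to the path fixes the subgroup -/
lemma T_fix {N n : ℕ} {adj : Fin N → Fin N → Prop} {T : Fin N → MulAut (FreeGroup (Xg N))}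
    (hT : Tw adj T) (y : Fin N) (hy : ¬ y.1 < n) (hna : ∀ i : Fin N, i.1 < n → ¬ adj y i) :
    ∀ f ∈ Fp N n, T y f = f := by
  intro f hf
  unfold Fp at hf
  induction hf using Subgroup.closure_induction with
  | mem x hx =>
    obtain ⟨t, ht, rfl | ⟨j, rfl⟩⟩ := hx
    · exact hT.h_fix y t (fun h => hy (h ▸ ht))
    · exact hT.e_fix y t j (fun h => hna t ht h.1) (fun h => hna t ht h.1)
  | one => rw [map_one]
  | mul x y _ _ hx hy => rw [map_mul, hx, hy]
  | inv x _ hx => rw [map_inv, hx]

/-- products of automorphisms which fix the subgroup -/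
lemma prod_fix {N n : ℕ} (l : List (MulAut (FreeGroup (Xg N))))
    (h : ∀ g ∈ l, ∀ f ∈ Fp N n, g f = f) : ∀ f ∈ Fp N n, l.prod f = f := by
  induction l with
  | nil => intro f _; rfl
  | cons g t ih =>
    intro f hf
    rw [List.prod_cons, MulAut.mul_apply, ih (fun g hg => h g (List.mem_cons_of_mem _ hg)) f hf]
    exact h g List.mem_cons_self f hf

open Classical in
theorem loc : LocStmt := by
  intro S J _ M W r K N n hn e T θ Φ κ fold hpa hcomm hθ hκ hfold hiso a i
  -- stabilizer of the subgroup
  have hstab : ∀ x : Gp (CoxeterMatrix.A n), ∀ f ∈ Fp N n, Φ x f ∈ Fp N n := by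
    have h1 : ∀ x ∈ Subgroup.closure (Set.range (gen (CoxeterMatrix.A n))),
        (∀ f ∈ Fp N n, Φ x f ∈ Fp N n) ∧ (∀ f ∈ Fp N n, (Φ x)⁻¹ f ∈ Fp N n) := by
      intro x hx
      induction hx using Subgroup.closure_induction with
      | mem x hx =>
        obtain ⟨j, rfl⟩ := hx
        rw [hpa.act j]
        exact ⟨T_mem hpa.tw _ j.2, Tinv_mem hpa.irr hpa.tw _ j.2⟩
      | one =>
        rw [map_one]
        exact ⟨fun f hf => hf, fun f hf => by rw [inv_one]; exact hf⟩
      | mul x y _ _ hx hy =>
        rw [map_mul]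
        refine ⟨fun f hf => ?_, fun f hf => ?_⟩
        · rw [MulAut.mul_apply]; exact hx.1 _ (hy.1 f hf)
        · rw [mul_inv_rev, MulAut.mul_apply]; exact hy.2 _ (hx.2 f hf)
      | inv x _ hx =>
        rw [map_inv, inv_inv]
        exact ⟨hx.2, hx.1⟩
    intro x
    rw [Art.closure_gen] at h1
    exact (h1 x (Subgroup.mem_top x)).1
  have hstab' : ∀ x : Gp (CoxeterMatrix.A n), ∀ f ∈ Fp N n, (Φ x)⁻¹ f ∈ Fp N n := by
    intro x f hf
    rw [← map_inv]
    exact hstab x⁻¹ f hf
  -- generators
  have hgen : ∀ j : J, ∀ f ∈ Fp N n, θ (κ (gen W j)) f = Φ (fold (gen W j)) f := by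
    intro j f hf
    rw [hκ, hθ, hfold, map_list_prod, List.map_map]
    have hlist : (List.ofFn (fun u : Fin K => T (e (r j, u)))) =
        ((List.finRange K).map (fun u => e (r j, u))).map T := by
      rw [List.map_map, List.ofFn_eq_map]
      rfl
    have hcm : ∀ x y : Fin N, (e.symm x).1 = r j → (e.symm y).1 = r j → T x * T y = T y * T x := by
      intro x y hx hy
      by_cases hxy : x = y
      · rw [hxy]
      · apply hcomm x y hxy
        intro hadj
        exact hadj.1 (hx.trans hy.symm)
    set l := (List.finRange K).map (fun u => e (r j, u)) with hl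
    have hlm : ∀ x ∈ l, (e.symm x).1 = r j := by
      intro x hx
      rw [hl, List.mem_map] at hx
      obtain ⟨u, _, rfl⟩ := hx
      rw [Equiv.symm_apply_apply]
    set l1 := l.filter (fun x => x.1 < n) with hl1
    set l2 := l.filter (fun x => !decide (x.1 < n)) with hl2
    have hperm : (l1 ++ l2).Perm l := by
      exact List.filter_append_perm (fun x : Fin N => decide (x.1 < n)) l
    have hprod : (l.map T).prod = (l1.map T).prod * (l2.map T).prod := by
      rw [← List.prod_append, ← List.map_append]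
      apply List.Perm.prod_eq' (hperm.symm.map T)
      rw [List.pairwise_map]
      apply List.pairwise_of_forall_mem_list
      intro x hx y hy
      exact hcm x y (hlm x hx) (hlm y hy)
    have hperm2 : l1.Perm (((List.finRange n).filter
        (fun i => (e.symm (Fin.castLE hn i)).1 = r j)).map (Fin.castLE hn)) := by
      rw [List.perm_ext_iff_of_nodup]
      · intro x
        rw [hl1, hl]
        simp only [List.mem_filter, List.mem_map, List.mem_finRange, true_and, decide_eq_true_eq]
        constructor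
        · rintro ⟨⟨u, rfl⟩, hx⟩
          refine ⟨⟨(e (r j, u)).1, hx⟩, ?_, ?_⟩
          · have : Fin.castLE hn ⟨(e (r j, u)).1, hx⟩ = e (r j, u) := Fin.ext rfl
            rw [this, Equiv.symm_apply_apply]
          · exact Fin.ext rfl
        · rintro ⟨i, hi, rfl⟩
          refine ⟨⟨(e.symm (Fin.castLE hn i)).2, ?_⟩, i.2⟩
          rw [← hi, Prod.mk.eta, Equiv.apply_symm_apply]
      · rw [hl1, hl]
        apply List.Nodup.filter
        apply List.Nodup.map _ (List.nodup_finRange K)
        intro u v huv
        have := e.injective huv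
        exact (Prod.mk.inj this).2
      · apply List.Nodup.map _ ((List.nodup_finRange n).filter _)
        intro u v huv
        have := congrArg Fin.val huv
        exact Fin.ext this
    rw [hlist, hprod, MulAut.mul_apply]
    rw [prod_fix (n := n) (l2.map T) ?_ f hf]
    · congr 1
      have h3 : (((List.finRange n).filter (fun i => (e.symm (Fin.castLE hn i)).1 = r j)).map
          (fun i => Φ (gen _ i))) = ((((List.finRange n).filter
          (fun i => (e.symm (Fin.castLE hn i)).1 = r j)).map (Fin.castLE hn)).map T) := by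
        rw [List.map_map]
        apply List.map_congr_left
        intro i _
        exact hpa.act i
      change (l1.map T).prod = (List.map (fun i => Φ (gen _ i)) _).prod
      rw [h3]
      apply List.Perm.prod_eq' (hperm2.map T)
      rw [List.pairwise_map]
      apply List.pairwise_of_forall_mem_list
      intro x hx y hy
      exact hcm x y (hlm x (List.mem_of_mem_filter hx)) (hlm y (List.mem_of_mem_filter hy))
    · intro g hg
      rw [List.mem_map] at hg
      obtain ⟨x, hx, rfl⟩ := hg
      have hxn : ¬ x.1 < n := by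
        have := (List.mem_filter.1 hx).2
        simpa using this
      have hxl : x ∈ l := List.mem_of_mem_filter hx
      apply T_fix hpa.tw x hxn
      intro i hi hadj
      refine hiso j (e.symm x) (hlm x hxl) ?_ ⟨i.1, hi⟩ ?_
      · intro i' h
        have h2 := e.symm.injective h
        exact hxn (by rw [h2]; exact i'.2)
      · have : Fin.castLE hn ⟨i.1, hi⟩ = i := Fin.ext rfl
        rw [this]
        exact hadj
  -- all elements
  have hall : ∀ a ∈ Subgroup.closure (Set.range (gen W)), ∀ f ∈ Fp N n,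
      θ (κ a) f = Φ (fold a) f := by
    intro a ha
    induction ha using Subgroup.closure_induction with
    | mem x hx =>
      obtain ⟨j, rfl⟩ := hx
      exact hgen j
    | one => intro f _; simp only [map_one]
    | mul x y _ _ hx hy =>
      intro f hf
      simp only [map_mul, MulAut.mul_apply]
      rw [hy f hf]
      exact hx _ (hstab _ f hf)
    | inv x _ hx =>
      intro f hf
      have h1 := hx ((Φ (fold x))⁻¹ f) (hstab' _ f hf)
      rw [MulAut.apply_inv_self] at h1
      simp only [map_inv]
      rw [← MulAut.inv_apply_self (FreeGroup (Xg N)) (θ (κ x)) ((Φ (fold x))⁻¹ f), h1]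
  rw [Art.closure_gen] at hall
  exact hall a (Subgroup.mem_top a) _ (hg_mem (Fin.castLE hn i) i.2)

end Unf.H37
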