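import Pool.Agent.Helper12_UNF.Stmts2

/-!
# Squad UNF, module NFO: normal forms in the free product of groups of order two
-/

set_option autoImplicit false

namespace Unf.H37

open Art Unf

/-- delete or add the first letter -/
def tog {k : ℕ} (i : Fin k) : List (Fin k) → List (Fin k)
  | [] => [i]
  | j :: t => if j = i then t else i :: j :: t

lemma tog_rw {k : ℕ} (i : Fin k) (l : List (Fin k)) (h : Rw l) : Rw (tog i l) := by
  unfold Rw at *
  cases l with
  | nil => simp [tog]
  | cons j t =>
    change List.IsChain _ (if j = i then t else i :: j :: t)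
    split_ifs with hji
    · exact h.tail
    · rw [List.isChain_cons_cons]
      exact ⟨fun h' => hji h'.symm, h⟩

lemma tog_tog {k : ℕ} (i : Fin k) (l : List (Fin k)) (h : Rw l) : tog i (tog i l) = l := by
  unfold Rw at h
  cases l with
  | nil => simp [tog]
  | cons j t =>
    by_cases hji : j = i
    · subst hji
      have h1 : tog j (j :: t) = t := by simp [tog]
      rw [h1]
      cases t with
      | nil => simp [tog]
      | cons m t' =>
        rw [List.isChain_cons_cons] at h
        have : m ≠ j := fun h' => h.1 h'.symm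
        simp [tog, this]
    · have h1 : tog i (j :: t) = i :: j :: t := by simp [tog, hji]
      rw [h1]
      simp [tog]

/-- the permutation of the reduced words -/
def tp {k : ℕ} (i : Fin k) : Equiv.Perm {l : List (Fin k) // Rw l} where
  toFun l := ⟨tog i l.1, tog_rw i l.1 l.2⟩
  invFun l := ⟨tog i l.1, tog_rw i l.1 l.2⟩
  left_inv l := Subtype.ext (tog_tog i l.1 l.2)
  right_inv l := Subtype.ext (tog_tog i l.1 l.2)

lemma tp_lift (k : ℕ) : (Om k).IsLiftable (tp (k := k)) := by
  intro i j
  by_cases hij : i = j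
  · subst hij
    have h1 : (Om k).M i i = 1 := (Om k).diagonal i
    rw [h1, pow_one]
    ext l : 1
    exact Subtype.ext (tog_tog i l.1 l.2)
  · have h1 : (Om k).M i j = 0 := by
      change (if i = j then 1 else 0) = 0
      rw [if_neg hij]
    rw [h1, pow_zero]

/-- the action of the group on reduced words -/
noncomputable def act (k : ℕ) : O k →* Equiv.Perm {l : List (Fin k) // Rw l} :=
  (Om k).toCoxeterSystem.lift ⟨tp, tp_lift k⟩

lemma act_ox {k : ℕ} (i : Fin k) : act k (ox i) = tp i := by
  have := (Om k).toCoxeterSystem.lift_apply_simple (tp_lift k) i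
  exact this

lemma wp_nil {k : ℕ} : wp ([] : List (Fin k)) = 1 := rfl

lemma wp_cons {k : ℕ} (i : Fin k) (l : List (Fin k)) : wp (i :: l) = ox i * wp l := by
  unfold wp
  rw [List.map_cons, List.prod_cons]

lemma ox_mul_self {k : ℕ} (i : Fin k) : ox i * ox i = 1 :=
  (Om k).toCoxeterSystem.simple_mul_simple_self i

lemma rw_nil {k : ℕ} : Rw ([] : List (Fin k)) := by
  unfold Rw
  exact List.isChain_nil

lemma act_wp {k : ℕ} (l : List (Fin k)) (h : Rw l) : (act k (wp l) ⟨[], rw_nil⟩).1 = l := by
  induction l with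
  | nil => rw [wp_nil, map_one]; rfl
  | cons i t ih =>
    rw [wp_cons, map_mul, act_ox, Equiv.Perm.mul_apply]
    change tog i (act k (wp t) ⟨[], rw_nil⟩).1 = i :: t
    have ht : Rw t := List.IsChain.tail h
    rw [ih ht]
    cases t with
    | nil => rfl
    | cons j t' =>
      unfold Rw at h
      rw [List.isChain_cons_cons] at h
      have : j ≠ i := fun h' => h.1 h'.symm
      simp [tog, this]

lemma wp_tog {k : ℕ} (i : Fin k) (l : List (Fin k)) : wp (tog i l) = ox i * wp l := by
  cases l with
  | nil => rfl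
  | cons j t =>
    by_cases h : j = i
    · subst h
      rw [wp_cons, ← mul_assoc, ox_mul_self, one_mul]
      simp [tog]
    · have : tog i (j :: t) = i :: j :: t := by simp [tog, h]
      rw [this, wp_cons]

lemma wp_act {k : ℕ} (l : List (Fin k)) : wp (act k (wp l) ⟨[], rw_nil⟩).1 = wp l := by
  induction l with
  | nil => rw [wp_nil, map_one]; rfl
  | cons i t ih =>
    rw [wp_cons, map_mul, act_ox, Equiv.Perm.mul_apply]
    change wp (tog i (act k (wp t) ⟨[], rw_nil⟩).1) = _
    rw [wp_tog, ih]

theorem nfo : NfoStmt := by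
  intro k g
  obtain ⟨w, hw⟩ := (Om k).toCoxeterSystem.wordProd_surjective g
  have hg : wp w = g := hw
  refine ⟨(act k g ⟨[], rw_nil⟩).1, ⟨(act k g ⟨[], rw_nil⟩).2, ?_⟩, ?_⟩
  · rw [← hg, wp_act]
  · rintro l ⟨h1, h2⟩
    rw [← h2, act_wp l h1]

end Unf.H37
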